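import Pool.Agent.Helper84.WC.Basic

/-!
# WC-12a: the shift of `F₂` on `Circle^{F₂}` preserves the Haar measure; free action on `ℤ[F₂]`
-/

open MeasureTheory Topology
open scoped ENNReal

namespace Pool.Agent.Helper84.WC

/-- nonzero finitely supported integer functions have trivial stabiliser -/
theorem free_finsupp (k : FreeGroup (Fin 2) →₀ ℤ) (hk : k ≠ 0) (s : FreeGroup (Fin 2))
    (h : ∀ g, k (s⁻¹ * g) = k g) : s = 1 := by
  by_contra hs
  have h1 : ¬ IsOfFinOrder s := not_isOfFinOrder_of_isMulTorsionFree hs
  have hinj := injective_pow_iff_not_isOfFinOrder.mpr h1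
  obtain ⟨g, hg⟩ := Finsupp.ne_iff.mp hk
  have h2 : ∀ n : ℕ, k (s ^ n * g) = k g := by
    intro n
    induction n with
    | zero => simp
    | succ n ih =>
      rw [← ih, ← h (s ^ (n + 1) * g), pow_succ', mul_assoc, inv_mul_cancel_left]
  have h3 : Set.range (fun n : ℕ => s ^ n * g) ⊆ (k.support : Set (FreeGroup (Fin 2))) := by
    rintro _ ⟨n, rfl⟩
    rw [Finset.mem_coe, Finsupp.mem_support_iff, h2]
    exact hg
  have h4 : (Set.range (fun n : ℕ => s ^ n * g)).Infinite := by
    apply Set.infinite_range_of_injective
    intro m n hmn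
    exact hinj (mul_right_cancel hmn)
  exact h4 (k.support.finite_toSet.subset h3)

/-- the shift as a group automorphism -/
noncomputable def wc12aE (s : FreeGroup (Fin 2)) :
    (FreeGroup (Fin 2) → Circle) ≃* (FreeGroup (Fin 2) → Circle) where
  toFun := shift s
  invFun := shift s⁻¹
  left_inv x := by
    funext g
    simp [shift]
  right_inv x := by
    funext g
    simp [shift]
  map_mul' x y := rfl

lemma wc12a_continuous (s : FreeGroup (Fin 2)) :
    Continuous (shift s : (FreeGroup (Fin 2) → Circle) → FreeGroup (Fin 2) → Circle) := by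
  unfold shift
  exact continuous_pi fun g => continuous_apply _

theorem shift_measurePreserving (s : FreeGroup (Fin 2)) :
    MeasurePreserving (shift s) haarT haarT := by
  have hm : Measurable (shift s : (FreeGroup (Fin 2) → Circle) → FreeGroup (Fin 2) → Circle) :=
    (wc12a_continuous s).measurable
  refine ⟨hm, ?_⟩
  have h1 : (Measure.map (shift s) haarT : Measure (FreeGroup (Fin 2) → Circle)).IsHaarMeasure :=
    (wc12aE s).isHaarMeasure_map haarT (wc12a_continuous s) (wc12a_continuous s⁻¹)
  have h2 : IsProbabilityMeasure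
      (Measure.map (shift s) haarT : Measure (FreeGroup (Fin 2) → Circle)) :=
    Measure.isProbabilityMeasure_map hm.aemeasurable
  exact Measure.isHaarMeasure_eq_of_isProbabilityMeasure _ _

end Pool.Agent.Helper84.WC
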