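import Pool.Agent.Helper84.WC.Basic

/-!
# WC-12b: spectral gap of the shift of `F₂` on `Circle^{F₂}`
-/

open MeasureTheory Topology Set Algebra Submodule
open scoped ENNReal InnerProductSpace ComplexConjugate

namespace Pool.Agent.Helper84.WC

/-- the group `Circle^{F₂}` -/
abbrev wc12T : Type := FreeGroup (Fin 2) → Circle

/-- the characters of `Circle^{F₂}`, with values in the circle -/
noncomputable def wc12c (k : FreeGroup (Fin 2) →₀ ℤ) (x : wc12T) : Circle :=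
  k.prod fun g n => x g ^ n

lemma wc12c_continuous (k : FreeGroup (Fin 2) →₀ ℤ) : Continuous (wc12c k) := by
  unfold wc12c Finsupp.prod
  exact continuous_finsetProd _ fun g _ => (continuous_apply g).zpow _

lemma wc12c_zero (x : wc12T) : wc12c 0 x = 1 := by
  unfold wc12c
  exact Finsupp.prod_zero_index

lemma wc12c_add (k l : FreeGroup (Fin 2) →₀ ℤ) (x : wc12T) :
    wc12c (k + l) x = wc12c k x * wc12c l x := by
  unfold wc12c
  apply Finsupp.prod_add_index'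
  · intro g; exact zpow_zero _
  · intro g m n; exact zpow_add _ _ _

lemma wc12c_neg (k : FreeGroup (Fin 2) →₀ ℤ) (x : wc12T) :
    wc12c (-k) x = (wc12c k x)⁻¹ := by
  rw [eq_inv_iff_mul_eq_one, ← wc12c_add, neg_add_cancel, wc12c_zero]

lemma wc12c_mul (k : FreeGroup (Fin 2) →₀ ℤ) (x y : wc12T) :
    wc12c k (x * y) = wc12c k x * wc12c k y := by
  unfold wc12c
  rw [← Finsupp.prod_mul]
  apply Finsupp.prod_congr
  intro g _
  rw [Pi.mul_apply, mul_zpow]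

/-- a nontrivial character is somewhere not `1` -/
lemma wc12c_ne (k : FreeGroup (Fin 2) →₀ ℤ) (hk : k ≠ 0) : ∃ y : wc12T, wc12c k y ≠ 1 := by
  obtain ⟨g, hg⟩ := Finsupp.ne_iff.mp hk
  rw [Finsupp.coe_zero, Pi.zero_apply] at hg
  refine ⟨Pi.mulSingle g (Circle.exp (Real.pi / k g)), ?_⟩
  have h1 : wc12c k (Pi.mulSingle g (Circle.exp (Real.pi / k g))) =
      (Circle.exp (Real.pi / k g)) ^ (k g) := by
    unfold wc12c
    rw [Finsupp.prod, Finset.prod_eq_single g]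
    · rw [Pi.mulSingle_eq_same]
    · intro h _ hh
      rw [Pi.mulSingle_eq_of_ne hh, one_zpow]
    · intro h
      rw [Finsupp.notMem_support_iff] at h
      exact absurd h hg
  rw [h1]
  intro h2
  have h3 : (Circle.exp (Real.pi / k g)) ^ (k g) = Circle.exp Real.pi := by
    rw [← Circle.exp_zsmul]
    congr 1
    have : ((k g : ℤ) : ℝ) ≠ 0 := by exact_mod_cast hg
    rw [zsmul_eq_mul]
    field_simp
  rw [h3] at h2
  have h4 : ((Circle.exp Real.pi : Circle) : ℂ) = 1 := by rw [h2]; rfl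
  rw [Circle.coe_exp, Complex.exp_pi_mul_I] at h4
  norm_num at h4

/-- the shift of a character -/
noncomputable def wc12s (s : FreeGroup (Fin 2)) (k : FreeGroup (Fin 2) →₀ ℤ) :
    FreeGroup (Fin 2) →₀ ℤ := Finsupp.equivMapDomain (Equiv.mulLeft s) k

lemma wc12s_apply (s : FreeGroup (Fin 2)) (k : FreeGroup (Fin 2) →₀ ℤ) (g : FreeGroup (Fin 2)) :
    wc12s s k g = k (s⁻¹ * g) := by
  unfold wc12s
  rw [Finsupp.equivMapDomain_apply]
  rfl

lemma wc12c_shift (s : FreeGroup (Fin 2)) (k : FreeGroup (Fin 2) →₀ ℤ) (x : wc12T) :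
    wc12c k (shift s⁻¹ x) = wc12c (wc12s s k) x := by
  unfold wc12c wc12s
  rw [Finsupp.prod_equivMapDomain]
  apply Finsupp.prod_congr
  intro g _
  simp [shift]

/-- the characters as continuous functions -/
noncomputable def wc12f (k : FreeGroup (Fin 2) →₀ ℤ) : C(wc12T, ℂ) :=
  ⟨fun x => (wc12c k x : ℂ), by
    exact continuous_subtype_val.comp (wc12c_continuous k)⟩

lemma wc12f_apply (k : FreeGroup (Fin 2) →₀ ℤ) (x : wc12T) : wc12f k x = (wc12c k x : ℂ) := rfl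

lemma wc12f_neg (k : FreeGroup (Fin 2) →₀ ℤ) (x : wc12T) : wc12f (-k) x = conj (wc12f k x) := by
  rw [wc12f_apply, wc12f_apply, wc12c_neg, Circle.coe_inv_eq_conj]

lemma wc12f_add (k l : FreeGroup (Fin 2) →₀ ℤ) (x : wc12T) :
    wc12f (k + l) x = wc12f k x * wc12f l x := by
  rw [wc12f_apply, wc12f_apply, wc12f_apply, wc12c_add, Circle.coe_mul]

lemma wc12f_zero (x : wc12T) : wc12f 0 x = 1 := by
  rw [wc12f_apply, wc12c_zero, Circle.coe_one]

/-- The star subalgebra of `C(T, ℂ)` generated by the characters. -/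
noncomputable def wc12A : StarSubalgebra ℂ C(wc12T, ℂ) where
  toSubalgebra := Algebra.adjoin ℂ (range wc12f)
  star_mem' := by
    change Algebra.adjoin ℂ (range wc12f) ≤ star (Algebra.adjoin ℂ (range wc12f))
    refine adjoin_le ?_
    rintro - ⟨k, rfl⟩
    exact subset_adjoin ⟨-k, ContinuousMap.ext fun x => wc12f_neg k x⟩

lemma wc12A_coe : Subalgebra.toSubmodule wc12A.toSubalgebra = span ℂ (range wc12f) := by
  apply adjoin_eq_span_of_subset
  refine Subset.trans ?_ Submodule.subset_span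
  intro x hx
  refine Submonoid.closure_induction (fun _ => id) ⟨0, ?_⟩ ?_ hx
  · ext1 z; exact wc12f_zero z
  · rintro - - - - ⟨m, rfl⟩ ⟨n, rfl⟩
    refine ⟨m + n, ?_⟩
    ext1 z
    exact wc12f_add m n z

lemma wc12A_sep : wc12A.SeparatesPoints := by
  intro x y hxy
  obtain ⟨g, hg⟩ := Function.ne_iff.mp hxy
  refine ⟨_, ⟨wc12f (Finsupp.single g 1), subset_adjoin ⟨_, rfl⟩, rfl⟩, ?_⟩
  have h : ∀ z : wc12T, wc12f (Finsupp.single g 1) z = (z g : ℂ) := by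
    intro z
    rw [wc12f_apply]
    unfold wc12c
    rw [Finsupp.prod_single_index (zpow_zero _), zpow_one]
  show wc12f (Finsupp.single g 1) x ≠ wc12f (Finsupp.single g 1) y
  rw [h, h]
  intro he
  exact hg (Subtype.ext he)

lemma wc12_span_top : (span ℂ (range wc12f)).topologicalClosure = ⊤ := by
  rw [← wc12A_coe]
  exact congr_arg (Subalgebra.toSubmodule <| StarSubalgebra.toSubalgebra ·)
    (ContinuousMap.starSubalgebra_topologicalClosure_eq_top_of_separatesPoints wc12A wc12A_sep)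

/-- the characters as elements of `L²` -/
noncomputable def wc12L (k : FreeGroup (Fin 2) →₀ ℤ) : Lp ℂ 2 haarT :=
  ContinuousMap.toLp (E := ℂ) 2 haarT ℂ (wc12f k)

lemma wc12L_span_top : (span ℂ (range wc12L)).topologicalClosure = ⊤ := by
  convert!
    (ContinuousMap.toLp_denseRange ℂ haarT ℂ (p := 2) (by norm_num)).topologicalClosure_map_submodule
      wc12_span_top
  rw [map_span]
  unfold wc12L
  rw [range_comp']
  simp only [ContinuousLinearMap.coe_coe]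

lemma wc12_integral (k : FreeGroup (Fin 2) →₀ ℤ) (hk : k ≠ 0) : ∫ x, wc12f k x ∂haarT = 0 := by
  obtain ⟨y, hy⟩ := wc12c_ne k hk
  have h1 : ∫ x, wc12f k (y * x) ∂haarT = ∫ x, wc12f k x ∂haarT :=
    integral_mul_left_eq_self _ y
  have h2 : ∀ x, wc12f k (y * x) = (wc12c k y : ℂ) * wc12f k x := by
    intro x
    rw [wc12f_apply, wc12f_apply, wc12c_mul, Circle.coe_mul]
  simp only [h2] at h1
  rw [integral_const_mul] at h1
  have h3 : ((wc12c k y : ℂ) - 1) * ∫ x, wc12f k x ∂haarT = 0 := by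
    linear_combination h1
  rcases mul_eq_zero.mp h3 with h4 | h4
  · exfalso
    apply hy
    apply Subtype.ext
    rw [sub_eq_zero] at h4
    exact h4
  · exact h4

lemma wc12L_orthonormal : Orthonormal ℂ wc12L := by
  rw [orthonormal_iff_ite]
  intro i j
  unfold wc12L
  rw [ContinuousMap.inner_toLp haarT (wc12f i) (wc12f j)]
  simp_rw [← wc12f_neg, ← wc12f_add]
  split_ifs with h
  · simp only [h, add_neg_cancel, wc12f_zero]
    simp
  · exact wc12_integral _ (by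
      intro h'
      apply h
      rw [add_neg_eq_zero] at h'
      exact h'.symm)

/-- the Hilbert basis of characters -/
noncomputable def wc12B : HilbertBasis (FreeGroup (Fin 2) →₀ ℤ) ℂ (Lp ℂ 2 haarT) :=
  HilbertBasis.mk wc12L_orthonormal wc12L_span_top.ge

lemma wc12B_apply (k : FreeGroup (Fin 2) →₀ ℤ) : wc12B k = wc12L k := by
  unfold wc12B
  rw [HilbertBasis.coe_mk]

/-- Parseval -/
lemma wc12_parseval (F : Lp ℂ 2 haarT) :
    HasSum (fun k => ‖⟪wc12L k, F⟫_ℂ‖ ^ 2) (‖F‖ ^ 2) := by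
  have h1 := lp.hasSum_norm (p := 2) (by norm_num) (wc12B.repr F)
  simp only [ENNReal.toReal_ofNat, Real.rpow_ofNat] at h1
  have h2 : ‖wc12B.repr F‖ = ‖F‖ := wc12B.repr.norm_map F
  rw [h2] at h1
  convert h1 using 3 with k
  rw [HilbertBasis.repr_apply_apply, wc12B_apply]

lemma wc12s_one (k : FreeGroup (Fin 2) →₀ ℤ) : wc12s 1 k = k := by
  ext g
  rw [wc12s_apply, inv_one, one_mul]

lemma wc12s_mul (s t : FreeGroup (Fin 2)) (k : FreeGroup (Fin 2) →₀ ℤ) :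
    wc12s (s * t) k = wc12s s (wc12s t k) := by
  ext g
  rw [wc12s_apply, wc12s_apply, wc12s_apply, mul_inv_rev, mul_assoc]

lemma wc12s_zero (s : FreeGroup (Fin 2)) : wc12s s 0 = 0 := by
  ext g
  rw [wc12s_apply]
  rfl

lemma wc12s_ne (s : FreeGroup (Fin 2)) {k : FreeGroup (Fin 2) →₀ ℤ} (hk : k ≠ 0) :
    wc12s s k ≠ 0 := by
  intro h
  apply hk
  rw [← wc12s_one k, ← inv_mul_cancel s, wc12s_mul, h, wc12s_zero]

/-- the action of `F₂` on the nonzero elements of `ℤ[F₂]` -/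
@[reducible] noncomputable def wc12act :
    MulAction (FreeGroup (Fin 2)) {k : FreeGroup (Fin 2) →₀ ℤ // k ≠ 0} where
  smul s k := ⟨wc12s s k.1, wc12s_ne s k.2⟩
  one_smul k := Subtype.ext (wc12s_one k.1)
  mul_smul s t k := Subtype.ext (wc12s_mul s t k.1)

/-- the shift as an isometry of `L²` -/
noncomputable def wc12U (hmp : ∀ s : FreeGroup (Fin 2), MeasurePreserving (shift s) haarT haarT)
    (s : FreeGroup (Fin 2)) : Lp ℂ 2 haarT →ₗᵢ[ℂ] Lp ℂ 2 haarT :=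
  Lp.compMeasurePreservingₗᵢ ℂ (shift s⁻¹ : wc12T → wc12T) (hmp s⁻¹)

lemma wc12U_L (hmp : ∀ s : FreeGroup (Fin 2), MeasurePreserving (shift s) haarT haarT)
    (s : FreeGroup (Fin 2)) (k : FreeGroup (Fin 2) →₀ ℤ) :
    wc12U hmp s (wc12L k) = wc12L (wc12s s k) := by
  apply Lp.ext
  have h1 : (wc12U hmp s (wc12L k) : wc12T → ℂ) =ᵐ[haarT] (wc12L k) ∘ (shift s⁻¹) :=
    Lp.coeFn_compMeasurePreserving (wc12L k) (hmp s⁻¹)
  have h2 : (wc12L k : wc12T → ℂ) =ᵐ[haarT] wc12f k := ContinuousMap.coeFn_toLp haarT (wc12f k)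
  have h3 : (wc12L (wc12s s k) : wc12T → ℂ) =ᵐ[haarT] wc12f (wc12s s k) :=
    ContinuousMap.coeFn_toLp haarT (wc12f (wc12s s k))
  have h4 := (hmp s⁻¹).quasiMeasurePreserving.ae_eq_comp h2
  filter_upwards [h1, h3, h4] with x k1 k3 k4
  rw [k1, k3, k4, Function.comp_apply, wc12f_apply, wc12f_apply, wc12c_shift]

lemma wc12_inner (hmp : ∀ s : FreeGroup (Fin 2), MeasurePreserving (shift s) haarT haarT)
    (s : FreeGroup (Fin 2)) (k : FreeGroup (Fin 2) →₀ ℤ) (F : Lp ℂ 2 haarT) :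
    ⟪wc12L k, wc12U hmp s F⟫_ℂ = ⟪wc12L (wc12s s⁻¹ k), F⟫_ℂ := by
  have h : wc12L k = wc12U hmp s (wc12L (wc12s s⁻¹ k)) := by
    rw [wc12U_L, ← wc12s_mul, mul_inv_cancel, wc12s_one]
  conv_lhs => rw [h]
  rw [LinearIsometry.inner_map_map]

lemma wc12_inner_zero (f : wc12T → ℂ) (hf : MemLp f 2 haarT) (h0 : ∫ x, f x ∂haarT = 0) :
    ⟪wc12L 0, hf.toLp f⟫_ℂ = 0 := by
  rw [L2.inner_def, ← h0]
  apply integral_congr_ae
  have h2 : (wc12L 0 : wc12T → ℂ) =ᵐ[haarT] wc12f 0 := ContinuousMap.coeFn_toLp haarT (wc12f 0)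
  filter_upwards [h2, hf.coeFn_toLp] with x k1 k2
  rw [k1, k2, wc12f_zero]
  simp

/-- the gap, from the gap for free actions on `ℓ²` -/
theorem wc12_torus_gap_of
    (hl2 : ∀ (I : Type) (_ : MulAction (FreeGroup (Fin 2)) I)
      (_ : ∀ (g : FreeGroup (Fin 2)) (k : I), g • k = k → g = 1)
      (φ : I → ℂ) (_ : Summable fun k => ‖φ k‖ ^ 2),
      ∃ s ∈ gens, (1 / 16) * ∑' k, ‖φ k‖ ^ 2 ≤ ∑' k, ‖φ (s⁻¹ • k) - φ k‖ ^ 2)
    (hfree : ∀ (k : FreeGroup (Fin 2) →₀ ℤ), k ≠ 0 → ∀ s : FreeGroup (Fin 2),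
      (∀ g, k (s⁻¹ * g) = k g) → s = 1)
    (hmp : ∀ s : FreeGroup (Fin 2), MeasurePreserving (shift s) haarT haarT)
    (f : (FreeGroup (Fin 2) → Circle) → ℂ) (hf : MemLp f 2 haarT)
    (h0 : ∫ x, f x ∂haarT = 0) :
    ∃ s ∈ gens, ENNReal.ofReal (1 / 4) * eLpNorm f 2 haarT ≤
      eLpNorm (fun x => f (shift s⁻¹ x) - f x) 2 haarT := by
  set F : Lp ℂ 2 haarT := hf.toLp f with hF
  have hz : ⟪wc12L 0, F⟫_ℂ = 0 := wc12_inner_zero f hf h0
  have hP := wc12_parseval F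
  have hsub : ∀ u : (FreeGroup (Fin 2) →₀ ℤ) → ℝ, u 0 = 0 →
      ∑' k : {k : FreeGroup (Fin 2) →₀ ℤ // k ≠ 0}, u k.1 = ∑' k, u k := by
    intro u hu
    apply tsum_subtype_eq_of_support_subset (s := {k : FreeGroup (Fin 2) →₀ ℤ | k ≠ 0})
    intro k hk hk0
    exact hk (by rw [hk0]; exact hu)
  obtain ⟨s, hs, hs2⟩ := hl2 {k : FreeGroup (Fin 2) →₀ ℤ // k ≠ 0} wc12act (by
    intro g k hgk
    apply hfree k.1 k.2 g
    intro h
    rw [← wc12s_apply]
    exact congrArg (fun z : {k : FreeGroup (Fin 2) →₀ ℤ // k ≠ 0} => z.1 h) hgk)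
    (fun k => ⟪wc12L k.1, F⟫_ℂ) (hP.summable.comp_injective Subtype.val_injective)
  refine ⟨s, hs, ?_⟩
  have e1 : ∑' k : {k : FreeGroup (Fin 2) →₀ ℤ // k ≠ 0}, ‖⟪wc12L k.1, F⟫_ℂ‖ ^ 2 = ‖F‖ ^ 2 := by
    rw [hsub (fun k => ‖⟪wc12L k, F⟫_ℂ‖ ^ 2) (by simp only [hz]; simp), hP.tsum_eq]
  have e2 : ∑' k : {k : FreeGroup (Fin 2) →₀ ℤ // k ≠ 0},
      ‖⟪wc12L (wc12s s⁻¹ k.1), F⟫_ℂ - ⟪wc12L k.1, F⟫_ℂ‖ ^ 2 = ‖wc12U hmp s F - F‖ ^ 2 := by
    rw [hsub (fun k => ‖⟪wc12L (wc12s s⁻¹ k), F⟫_ℂ - ⟪wc12L k, F⟫_ℂ‖ ^ 2)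
      (by simp only [wc12s_zero, hz]; simp), ← (wc12_parseval (wc12U hmp s F - F)).tsum_eq]
    congr 1
    funext k
    rw [inner_sub_right, wc12_inner]
  have e3 : (1 / 16) * ‖F‖ ^ 2 ≤ ‖wc12U hmp s F - F‖ ^ 2 := by
    rw [← e1, ← e2]
    exact hs2
  have e4 : (1 / 4) * ‖F‖ ≤ ‖wc12U hmp s F - F‖ := by
    apply le_of_sq_le_sq _ (norm_nonneg _)
    nlinarith [e3]
  have e5 : wc12U hmp s F - F =
      ((hf.comp_measurePreserving (hmp s⁻¹)).sub hf).toLp _ := by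
    rw [MemLp.toLp_sub (hf.comp_measurePreserving (hmp s⁻¹)) hf]
    rfl
  rw [e5, hF, Lp.norm_toLp, Lp.norm_toLp] at e4
  have e6 : (ENNReal.ofReal (1 / 4) * eLpNorm f 2 haarT).toReal ≤
      (eLpNorm (f ∘ shift s⁻¹ - f) 2 haarT).toReal := by
    rw [ENNReal.toReal_mul, ENNReal.toReal_ofReal (by norm_num)]
    exact e4
  have e7 := (ENNReal.toReal_le_toReal
    (ENNReal.mul_ne_top ENNReal.ofReal_ne_top hf.eLpNorm_ne_top)
    ((hf.comp_measurePreserving (hmp s⁻¹)).sub hf).eLpNorm_ne_top).mp e6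
  exact e7

end Pool.Agent.Helper84.WC
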